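import Mathlib
import Pool.Agent.Helper49.NC.SysParam

set_option autoImplicit false

namespace Pool.Agent.Helper10.NC

open MvPolynomial IsLocalRing RingTheory.Sequence
open scoped Pointwise

/-- Krull intersection argument: in a Noetherian local ring, if `(g)` is prime and `g` is regular,
the ring is a domain. -/
theorem isDomain_of_span_prime {S : Type*} [CommRing S] [IsLocalRing S] [IsNoetherianRing S]
    (g : S) (hg : IsSMulRegular S g)
    (hp : (Ideal.span {g}).IsPrime) : IsDomain S := by
  have hne : Ideal.span {g} ≠ ⊤ := hp.ne_top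
  have hK : (⨅ i : ℕ, Ideal.span {g} ^ i) = (⊥ : Ideal S) := by
    exact Ideal.iInf_pow_eq_bot_of_isLocalRing _ hne
  have key : ∀ a : S, a ≠ 0 → ∃ (n : ℕ) (b : S), a = g ^ n * b ∧ b ∉ Ideal.span {g} := by
    intro a ha
    by_contra hcon
    push Not at hcon
    apply ha
    have hmem : ∀ n : ℕ, a ∈ Ideal.span {g} ^ n := by
      intro n
      induction n with
      | zero => simp
      | succ n ih =>
        rw [Ideal.span_singleton_pow, Ideal.mem_span_singleton'] at ih
        obtain ⟨b, hb⟩ := ih
        have hb' := hcon n b (by rw [← hb, mul_comm])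
        rw [Ideal.mem_span_singleton'] at hb'
        obtain ⟨c, hc⟩ := hb'
        rw [Ideal.span_singleton_pow, Ideal.mem_span_singleton']
        exact ⟨c, by rw [← hb, ← hc]; ring⟩
    have : a ∈ (⨅ i : ℕ, Ideal.span {g} ^ i) := by
      rw [Submodule.mem_iInf]; exact hmem
    rw [hK] at this
    simpa using this
  have hreg : ∀ n : ℕ, ∀ x : S, g ^ n * x = 0 → x = 0 := by
    intro n
    induction n with
    | zero => intro x hx; simpa using hx
    | succ n ih =>
      intro x hx
      apply ih
      have h1 : g • (g ^ n * x) = g • (0 : S) := by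
        simp only [smul_eq_mul, mul_zero]; rw [← hx]; ring
      exact hg h1
  have : NoZeroDivisors S := by
    refine ⟨?_⟩
    intro a b hab
    by_contra hcon
    push Not at hcon
    obtain ⟨n, a', ha, ha'⟩ := key a hcon.1
    obtain ⟨m, b', hb, hb'⟩ := key b hcon.2
    have h0 : a' * b' = 0 := by
      apply hreg (n + m)
      rw [← hab, ha, hb]; ring
    have : a' * b' ∈ Ideal.span {g} := by rw [h0]; exact Submodule.zero_mem _
    rcases hp.mem_or_mem this with h | h
    · exact ha' h
    · exact hb' h
  exact NoZeroDivisors.to_isDomain S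

/-- Passing from the module `S/gS` to the ring `S/(g)`. -/
theorem isRegular_quot_iff {S : Type*} [CommRing S] (g : S) (rs : List (S ⧸ Ideal.span {g})) :
    IsRegular (QuotSMulTop g S) rs ↔ IsRegular (S ⧸ Ideal.span {g}) rs := by
  have heq : (g • (⊤ : Submodule S S)) = Ideal.span {g} := by
    rw [← Submodule.ideal_span_singleton_smul]; simp
  let e : QuotSMulTop g S ≃+ (S ⧸ Ideal.span {g}) :=
    (Submodule.quotEquivOfEq (g • (⊤ : Submodule S S)) (Ideal.span {g}) heq).toAddEquiv
  apply AddEquiv.isRegular_congr (e := e)
  rw [List.forall₂_same]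
  intro r _ x
  change e (r • x) = r • e x
  obtain ⟨r, rfl⟩ := Ideal.Quotient.mk_surjective r
  obtain ⟨x, rfl⟩ := Submodule.Quotient.mk_surjective _ x
  rfl

theorem isDomain_aux (n : ℕ) : ∀ {S : Type*} [CommRing S] [IsLocalRing S] [IsNoetherianRing S]
    (rs : List S), rs.length = n → IsRegular S rs → Ideal.ofList rs = maximalIdeal S →
    IsDomain S := by
  induction n with
  | zero =>
    intro S _ _ _ rs hlen hreg hm
    have : rs = [] := List.length_eq_zero_iff.mp hlen
    subst this
    rw [Ideal.ofList_nil] at hm
    have hf : IsField S := IsLocalRing.isField_iff_maximalIdeal_eq.mpr hm.symm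
    exact hf.isDomain
  | succ n ih =>
    intro S _ _ _ rs hlen hreg hm
    match rs, hlen, hreg, hm with
    | g :: rs, hlen, hreg, hm =>
      rw [isRegular_cons_iff'] at hreg
      obtain ⟨hg, hrs⟩ := hreg
      have hgm : g ∈ maximalIdeal S := by
        rw [← hm, Ideal.ofList_cons]
        exact Ideal.mem_sup_left (Ideal.mem_span_singleton_self g)
      have hne : Ideal.span {g} ≠ ⊤ := by
        intro h
        have : (1 : S) ∈ Ideal.span {g} := by rw [h]; trivial
        have h2 : (1 : S) ∈ maximalIdeal S :=
          (Ideal.span_singleton_le_iff_mem _).mpr hgm this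
        exact (Ideal.ne_top_iff_one _).mp (maximalIdeal.isMaximal S).ne_top h2
      have : Nontrivial (S ⧸ Ideal.span {g}) := Ideal.Quotient.nontrivial_iff.mpr hne
      have : IsLocalRing (S ⧸ Ideal.span {g}) :=
        IsLocalRing.of_surjective' (Ideal.Quotient.mk (Ideal.span {g}))
          Ideal.Quotient.mk_surjective
      have hdom : IsDomain (S ⧸ Ideal.span {g}) := by
        apply ih (rs.map (Ideal.Quotient.mk (Ideal.span {g})))
        · simpa using hlen
        · exact (isRegular_quot_iff g _).mp hrs
        · rw [← Ideal.map_ofList,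
            ← map_maximalIdeal_of_surjective (Ideal.Quotient.mk (Ideal.span {g}))
              Ideal.Quotient.mk_surjective, ← hm, Ideal.ofList_cons, Ideal.map_sup]
          rw [Ideal.map_quotient_self, bot_sup_eq]
      have hp : (Ideal.span {g}).IsPrime := (Ideal.Quotient.isDomain_iff_prime _).mp hdom
      exact isDomain_of_span_prime g hg hp

/-- A Noetherian local ring whose maximal ideal is generated by a regular sequence is a domain. -/
theorem isDomain_of_isRegular {S : Type*} [CommRing S] [IsLocalRing S] [IsNoetherianRing S]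
    (rs : List S) (hreg : IsRegular S rs) (hm : Ideal.ofList rs = maximalIdeal S) :
    IsDomain S := isDomain_aux rs.length rs rfl hreg hm


/-- The ideal of the point `a`. -/
noncomputable def ptIdeal {σ K : Type*} [Field K] (a : σ → K) : Ideal (MvPolynomial σ K) :=
  RingHom.ker (MvPolynomial.eval a)

instance {σ K : Type*} [Field K] (a : σ → K) : (ptIdeal a).IsPrime :=
  RingHom.ker_isPrime _

theorem mem_ptIdeal {σ K : Type*} [Field K] (a : σ → K) (f : MvPolynomial σ K) :
    f ∈ ptIdeal a ↔ MvPolynomial.eval a f = 0 := Iff.rfl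

section Subst

variable {σ K : Type*} [Field K] (a : σ → K)

/-- Substitution of the values `a w` for `w` in the list. -/
noncomputable def subst [DecidableEq σ] (l : List σ) : MvPolynomial σ K →ₐ[K] MvPolynomial σ K :=
  MvPolynomial.aeval (fun w => if w ∈ l then C (a w) else X w)

theorem sub_subst_mem [DecidableEq σ] (l : List σ) (f : MvPolynomial σ K) :
    f - subst a l f ∈ Ideal.ofList (l.map fun v => (X v - C (a v) : MvPolynomial σ K)) := by
  induction f using MvPolynomial.induction_on with
  | C c => simp [subst]
  | add f g hf hg =>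
    have : f + g - subst a l (f + g) = (f - subst a l f) + (g - subst a l g) := by
      rw [map_add]; ring
    rw [this]; exact Ideal.add_mem _ hf hg
  | mul_X f w hf =>
    have h1 : f * X w - subst a l (f * X w)
        = X w * (f - subst a l f) + subst a l f * (X w - subst a l (X w)) := by
      rw [map_mul]; ring
    rw [h1]
    refine Ideal.add_mem _ (Ideal.mul_mem_left _ _ hf) (Ideal.mul_mem_left _ _ ?_)
    simp only [subst, aeval_X]
    split_ifs with hw
    · apply Ideal.subset_span
      exact List.mem_map.mpr ⟨w, hw, rfl⟩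
    · simp

theorem subst_eq_zero_of_mem [DecidableEq σ] (l : List σ) (f : MvPolynomial σ K)
    (hf : f ∈ Ideal.ofList (l.map fun v => (X v - C (a v) : MvPolynomial σ K))) :
    subst a l f = 0 := by
  have : Ideal.ofList (l.map fun v => (X v - C (a v) : MvPolynomial σ K)) ≤
      RingHom.ker (subst a l).toRingHom := by
    apply Ideal.span_le.mpr
    intro g hg
    obtain ⟨v, hv, rfl⟩ := List.mem_map.mp hg
    simp only [SetLike.mem_coe, RingHom.mem_ker]
    simp [subst, hv]
  exact this hf

theorem mem_ofList_iff [DecidableEq σ] (l : List σ) (f : MvPolynomial σ K) :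
    f ∈ Ideal.ofList (l.map fun v => (X v - C (a v) : MvPolynomial σ K)) ↔
      subst a l f = 0 := by
  refine ⟨subst_eq_zero_of_mem a l f, fun h => ?_⟩
  have := sub_subst_mem a l f
  rwa [h, sub_zero] at this

theorem isWeaklyRegular_list (l : List σ) (hl : l.Nodup) :
    IsWeaklyRegular (MvPolynomial σ K) (l.map fun v => (X v - C (a v) : MvPolynomial σ K)) := by
  classical
  refine ⟨fun i hi => ?_⟩
  rw [isSMulRegular_quotient_iff_mem_of_smul_mem]
  intro x hx
  rw [List.length_map] at hi
  have h1 : (Ideal.ofList (List.take i (l.map fun v => (X v - C (a v) : MvPolynomial σ K))) •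
      (⊤ : Submodule (MvPolynomial σ K) (MvPolynomial σ K))) =
      Ideal.ofList ((l.take i).map fun v => (X v - C (a v) : MvPolynomial σ K)) := by
    rw [List.map_take]; simp
  rw [h1] at hx ⊢
  rw [mem_ofList_iff] at hx ⊢
  rw [smul_eq_mul, map_mul] at hx
  rcases mul_eq_zero.mp hx with h | h
  · exfalso
    have hnot : l[i] ∉ l.take i := by
      intro hmem
      rw [List.mem_take_iff_getElem] at hmem
      obtain ⟨j, hj, hjeq⟩ := hmem
      have := (List.Nodup.getElem_inj_iff hl).mp hjeq
      omega
    simp only [List.getElem_map, subst, map_sub, aeval_X, hnot, if_false] at h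
    have h2 := congrArg (MvPolynomial.eval (fun w => a w + 1)) h
    simp at h2
  · exact h

theorem subst_univ [Fintype σ] [DecidableEq σ] (f : MvPolynomial σ K) :
    subst a (Finset.univ : Finset σ).toList f = C (MvPolynomial.eval a f) := by
  induction f using MvPolynomial.induction_on with
  | C c => simp [subst]
  | add f g hf hg => rw [map_add, hf, hg, map_add, map_add]
  | mul_X f w hf => rw [map_mul, hf, map_mul, map_mul]; simp [subst]

theorem ofList_univ_eq [Fintype σ] :
    Ideal.ofList ((Finset.univ : Finset σ).toList.map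
      fun v => (X v - C (a v) : MvPolynomial σ K)) = ptIdeal a := by
  classical
  apply le_antisymm
  · apply Ideal.span_le.mpr
    intro g hg
    obtain ⟨v, hv, rfl⟩ := List.mem_map.mp hg
    simp only [SetLike.mem_coe, mem_ptIdeal]
    simp
  · intro f hf
    rw [mem_ofList_iff]
    rw [subst_univ, (mem_ptIdeal a f).mp hf, C_0]

end Subst


theorem local_reg {σ K : Type*} [Fintype σ] [Field K] (a : σ → K) :
    ∃ rs : List (Localization.AtPrime (ptIdeal a)), rs.length = Fintype.card σ ∧
      IsRegular (Localization.AtPrime (ptIdeal a)) rs ∧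
      Ideal.ofList rs = maximalIdeal (Localization.AtPrime (ptIdeal a)) ∧
      ringKrullDim (Localization.AtPrime (ptIdeal a)) = Fintype.card σ := by
  classical
  set l : List (MvPolynomial σ K) := (Finset.univ : Finset σ).toList.map
      fun v => (X v - C (a v) : MvPolynomial σ K) with hl
  have hw : IsWeaklyRegular (MvPolynomial σ K) l :=
    isWeaklyRegular_list a _ (Finset.nodup_toList _)
  have hmem : ∀ r ∈ l, r ∈ ptIdeal a := by
    intro r hr
    rw [← ofList_univ_eq]
    exact Ideal.subset_span hr
  have hreg : IsRegular (Localization.AtPrime (ptIdeal a))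
      (l.map (algebraMap (MvPolynomial σ K) (Localization.AtPrime (ptIdeal a)))) :=
    hw.isRegular_of_isLocalization_of_mem _ (ptIdeal a) hmem
  have hm : Ideal.ofList (l.map (algebraMap (MvPolynomial σ K)
      (Localization.AtPrime (ptIdeal a)))) = maximalIdeal (Localization.AtPrime (ptIdeal a)) := by
    rw [← Ideal.map_ofList, hl, ofList_univ_eq, Localization.AtPrime.map_eq_maximalIdeal]
  have hlen : (l.map (algebraMap (MvPolynomial σ K)
      (Localization.AtPrime (ptIdeal a)))).length = Fintype.card σ := by
    simp [hl]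
  refine ⟨_, hlen, hreg, hm, ?_⟩
  rw [← ringKrullDim_add_length_eq_ringKrullDim_of_isRegular _ hreg, hm, hlen]
  have : ringKrullDim (Localization.AtPrime (ptIdeal a) ⧸
      maximalIdeal (Localization.AtPrime (ptIdeal a))) = 0 :=
    ringKrullDim_eq_zero_of_isField
      ((Ideal.Quotient.maximal_ideal_iff_isField_quotient _).mp
        (maximalIdeal.isMaximal (Localization.AtPrime (ptIdeal a))))
  rw [this, zero_add]


section Taylor

variable {σ K : Type*} [Field K] (a : σ → K)

/-- The differential at the point `a`. -/
noncomputable def dif (f : MvPolynomial σ K) : σ → K :=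
  fun v => MvPolynomial.eval a (pderiv v f)

theorem dif_add (f g : MvPolynomial σ K) : dif a (f + g) = dif a f + dif a g := by
  funext v; simp [dif]

theorem dif_C_mul (c : K) (f : MvPolynomial σ K) : dif a (C c * f) = c • dif a f := by
  funext v; simp [dif]

theorem dif_zero : dif a (0 : MvPolynomial σ K) = 0 := by
  funext v; simp [dif]

theorem dif_lin [DecidableEq σ] (w : σ) :
    dif a (X w - C (a w) : MvPolynomial σ K) = Pi.single w 1 := by
  funext v
  simp only [dif, map_sub, pderiv_C, sub_zero, pderiv_X]
  by_cases h : w = v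
  · subst h; simp
  · simp [Pi.single_apply, h, Ne.symm h]

theorem lin_mem (w : σ) : (X w - C (a w) : MvPolynomial σ K) ∈ ptIdeal a := by
  rw [mem_ptIdeal]; simp

theorem taylor_mem [Fintype σ] (f : MvPolynomial σ K) :
    f - C (MvPolynomial.eval a f) - ∑ v, C (dif a f v) * (X v - C (a v)) ∈ (ptIdeal a) ^ 2 := by
  classical
  induction f using MvPolynomial.induction_on with
  | C c => simp [dif]
  | add f g hf hg =>
    have : f + g - C (MvPolynomial.eval a (f + g)) -
        ∑ v, C (dif a (f + g) v) * (X v - C (a v)) =
        (f - C (MvPolynomial.eval a f) - ∑ v, C (dif a f v) * (X v - C (a v))) +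
        (g - C (MvPolynomial.eval a g) - ∑ v, C (dif a g v) * (X v - C (a v))) := by
      simp only [dif_add, map_add, Pi.add_apply, add_mul, Finset.sum_add_distrib]
      ring
    rw [this]
    exact Ideal.add_mem _ hf hg
  | mul_X f w hf =>
    have hd : ∀ v, dif a (f * X w) v = a w * dif a f v +
        MvPolynomial.eval a f * (Pi.single w (1 : K) : σ → K) v := by
      intro v
      simp only [dif, Derivation.leibniz, smul_eq_mul, map_add, map_mul, eval_X, pderiv_X]
      by_cases h : w = v
      · subst h; simp; ring
      · simp [Pi.single_apply, h, Ne.symm h]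
    have hs : ∑ v, C (dif a (f * X w) v) * (X v - C (a v) : MvPolynomial σ K) =
        C (a w) * ∑ v, C (dif a f v) * (X v - C (a v)) +
          C (MvPolynomial.eval a f) * (X w - C (a w)) := by
      simp only [hd, map_add, add_mul, Finset.sum_add_distrib, map_mul, Finset.mul_sum]
      congr 1
      · exact Finset.sum_congr rfl fun v _ => by ring
      · rw [Finset.sum_eq_single w]
        · simp
        · intro v _ hv; simp [Pi.single_apply, hv]
        · simp
    set F := ∑ v, C (dif a f v) * (X v - C (a v) : MvPolynomial σ K) with hF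
    have hFm : F ∈ ptIdeal a :=
      Ideal.sum_mem _ fun v _ => Ideal.mul_mem_left _ _ (lin_mem a v)
    have : f * X w - C (MvPolynomial.eval a (f * X w)) -
        ∑ v, C (dif a (f * X w) v) * (X v - C (a v)) =
        X w * (f - C (MvPolynomial.eval a f) - F) + F * (X w - C (a w)) := by
      rw [hs, map_mul, eval_X, map_mul]; ring
    rw [this]
    refine Ideal.add_mem _ (Ideal.mul_mem_left _ _ hf) ?_
    rw [pow_two]
    exact Ideal.mul_mem_mul hFm (lin_mem a w)

theorem mem_sq_of_dif [Fintype σ] (f : MvPolynomial σ K) (h0 : MvPolynomial.eval a f = 0)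
    (h1 : dif a f = 0) : f ∈ (ptIdeal a) ^ 2 := by
  have := taylor_mem a f
  simpa [h0, h1] using this

/-- Extension of `u` by coordinates to generators of the ideal of the point modulo its square. -/
theorem exists_coords [Fintype σ] {ι : Type*} [Fintype ι] (u : ι → MvPolynomial σ K)
    (hu : ∀ i, MvPolynomial.eval a (u i) = 0)
    (hJ : LinearIndependent K (fun i => dif a (u i))) :
    ∃ T : Finset σ, Fintype.card ι + T.card = Fintype.card σ ∧
      ptIdeal a ≤ (Ideal.span (Set.range u) ⊔
        Ideal.span ((fun v => (X v - C (a v) : MvPolynomial σ K)) '' (T : Set σ))) ⊔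
          ptIdeal a ^ 2 := by
  classical
  let V : ι ⊕ σ → (σ → K) := Sum.elim (fun i => dif a (u i)) (fun w => Pi.single w 1)
  have hs : LinearIndepOn K V (Set.range Sum.inl) := by
    rw [linearIndepOn_range_iff Sum.inl_injective]
    exact hJ
  set b := hs.extend (Set.subset_univ _) with hb
  have hbl : LinearIndepOn K V b := hs.linearIndepOn_extend _
  have hbs : Set.range Sum.inl ⊆ b := hs.subset_extend _
  have hspan : Submodule.span K (V '' b) = ⊤ := by
    rw [eq_top_iff]
    intro y _
    have h1 : ∀ w, (Pi.single w 1 : σ → K) ∈ Submodule.span K (V '' b) := by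
      intro w
      exact hs.image_subset_span_image_extend (Set.subset_univ _)
        ⟨Sum.inr w, Set.mem_univ _, rfl⟩
    have : y = ∑ w, y w • (Pi.single w 1 : σ → K) := by
      funext v
      simp [Finset.sum_apply, Pi.single_apply]
    rw [this]
    exact Submodule.sum_mem _ fun w _ => Submodule.smul_mem _ _ (h1 w)
  let T : Finset σ := Finset.univ.filter (fun w => (Sum.inr w : ι ⊕ σ) ∈ b)
  have hcard : Fintype.card ι + T.card = Fintype.card σ := by
    have hB : Fintype.card b = Fintype.card σ := by
      let B : Module.Basis b K (σ → K) := Module.Basis.mk hbl (by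
        rw [← hspan, Set.image_eq_range])
      have := Module.finrank_eq_card_basis B
      rw [Module.finrank_fintype_fun_eq_card] at this
      exact this.symm
    rw [← hB]
    have : Fintype.card b = (Finset.univ.filter (fun x : ι ⊕ σ => x ∈ b)).card := by
      rw [Fintype.card_subtype]
    rw [this]
    have h2 : (Finset.univ.filter (fun x : ι ⊕ σ => x ∈ b)) =
        (Finset.univ : Finset ι).disjSum T := by
      ext x
      rcases x with i | w
      · simp [hbs ⟨i, rfl⟩]
      · simp [T]
    rw [h2, Finset.card_disjSum, Finset.card_univ]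
  refine ⟨T, hcard, ?_⟩
  set J0 := (Ideal.span (Set.range u) ⊔
        Ideal.span ((fun v => (X v - C (a v) : MvPolynomial σ K)) '' (T : Set σ))) with hJ0
  have key : ∀ y ∈ Submodule.span K (V '' b), ∃ h ∈ J0, dif a h = y ∧
      MvPolynomial.eval a h = 0 := by
    intro y hy
    induction hy using Submodule.span_induction with
    | mem y hy =>
      obtain ⟨x, hx, rfl⟩ := hy
      rcases x with i | w
      · exact ⟨u i, Ideal.mem_sup_left (Ideal.subset_span ⟨i, rfl⟩), rfl, hu i⟩
      · refine ⟨X w - C (a w), Ideal.mem_sup_right (Ideal.subset_span ⟨w, ?_, rfl⟩),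
          dif_lin a w, by simp⟩
        simpa [T] using hx
    | zero => exact ⟨0, Ideal.zero_mem _, dif_zero a, by simp⟩
    | add y z _ _ hy hz =>
      obtain ⟨f, hf, hf1, hf2⟩ := hy
      obtain ⟨g, hg, hg1, hg2⟩ := hz
      exact ⟨f + g, Ideal.add_mem _ hf hg, by rw [dif_add, hf1, hg1], by simp [hf2, hg2]⟩
    | smul c y _ hy =>
      obtain ⟨f, hf, hf1, hf2⟩ := hy
      exact ⟨C c * f, Ideal.mul_mem_left _ _ hf, by rw [dif_C_mul, hf1], by simp [hf2]⟩
  rw [← ofList_univ_eq a]
  apply Ideal.span_le.mpr
  intro g hg
  obtain ⟨w, hw, rfl⟩ := List.mem_map.mp hg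
  obtain ⟨h, hh, h1, h2⟩ := key (Pi.single w 1) (by rw [hspan]; trivial)
  have h3 : (X w - C (a w) : MvPolynomial σ K) - h ∈ ptIdeal a ^ 2 := by
    apply mem_sq_of_dif
    · simp [h2]
    · have : dif a ((X w - C (a w) : MvPolynomial σ K) - h) =
          dif a (X w - C (a w) : MvPolynomial σ K) - dif a h := by
        funext v; simp [dif]
      rw [this, h1, dif_lin, sub_self]
  have h4 : (X w - C (a w) : MvPolynomial σ K) = h + ((X w - C (a w)) - h) := by ring
  rw [h4, ofList_univ_eq a]
  exact Ideal.add_mem _ (Ideal.mem_sup_left hh) (Ideal.mem_sup_right h3)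

end Taylor


/-- The quotients of a Noetherian local ring by initial segments of a regular sequence generating
the maximal ideal are domains. -/
theorem isPrime_prefix {S : Type*} [CommRing S] [IsLocalRing S] [IsNoetherianRing S]
    (us vs : List S) (hreg : IsRegular S (us ++ vs))
    (hm : Ideal.ofList (us ++ vs) = maximalIdeal S) : (Ideal.ofList us).IsPrime := by
  set J : Ideal S := Ideal.ofList us with hJ
  have hJm : J ≤ maximalIdeal S := by
    rw [← hm, Ideal.ofList_append]; exact le_sup_left
  have hne : J ≠ ⊤ := ne_top_of_le_ne_top (maximalIdeal.isMaximal S).ne_top hJm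
  have : Nontrivial (S ⧸ J) := Ideal.Quotient.nontrivial_iff.mpr hne
  have : IsLocalRing (S ⧸ J) :=
    IsLocalRing.of_surjective' (Ideal.Quotient.mk J) Ideal.Quotient.mk_surjective
  have hw : IsWeaklyRegular (S ⧸ (J • ⊤ : Submodule S S)) vs :=
    ((isWeaklyRegular_append_iff S us vs).mp hreg.toIsWeaklyRegular).2
  have heq : (J • ⊤ : Submodule S S) = J := by simp
  have hw2 : IsWeaklyRegular (S ⧸ J) vs :=
    ((Submodule.quotEquivOfEq (J • ⊤ : Submodule S S) J heq).isWeaklyRegular_congr vs).mp hw
  have hw3 : IsWeaklyRegular (S ⧸ J) (vs.map (Ideal.Quotient.mk J)) :=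
    (isWeaklyRegular_map_algebraMap_iff (S ⧸ J) (S ⧸ J) vs).mpr hw2
  have hm2 : Ideal.ofList (vs.map (Ideal.Quotient.mk J)) = maximalIdeal (S ⧸ J) := by
    rw [← Ideal.map_ofList,
      ← map_maximalIdeal_of_surjective (Ideal.Quotient.mk J) Ideal.Quotient.mk_surjective, ← hm,
      Ideal.ofList_append, Ideal.map_sup, ← hJ, Ideal.map_quotient_self, bot_sup_eq]
  have hr : IsRegular (S ⧸ J) (vs.map (Ideal.Quotient.mk J)) := by
    apply RingTheory.Sequence.IsRegular.of_isWeaklyRegular_of_mem_maximalIdeal _ _ hw3
    intro r hr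
    rw [← hm2]
    exact Ideal.subset_span hr
  have := isDomain_of_isRegular _ hr hm2
  exact (Ideal.Quotient.isDomain_iff_prime _).mp this

theorem le_height_prefix {S : Type*} [CommRing S] [IsLocalRing S] [IsNoetherianRing S]
    (gs : List S) (hreg : IsRegular S gs)
    (hm : Ideal.ofList gs = maximalIdeal S) (k : ℕ) (hk : k ≤ gs.length) :
    (k : ℕ∞) ≤ (Ideal.ofList (gs.take k)).height := by
  have hprime : ∀ k, (Ideal.ofList (gs.take k)).IsPrime := by
    intro k
    apply isPrime_prefix (gs.take k) (gs.drop k)
    · rwa [List.take_append_drop]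
    · rwa [List.take_append_drop]
  induction k with
  | zero => simp
  | succ k ih =>
    have hk' : k < gs.length := hk
    have := hprime k
    have := hprime (k + 1)
    have hlt : Ideal.ofList (gs.take k) < Ideal.ofList (gs.take (k + 1)) := by
      have h1 : gs.take (k + 1) = gs.take k ++ [gs[k]] := by
        rw [List.take_append_getElem hk']
      refine lt_of_le_of_ne ?_ ?_
      · rw [h1, Ideal.ofList_append]; exact le_sup_left
      · intro heq
        have hmem : gs[k] ∈ Ideal.ofList (gs.take k) := by
          rw [heq, h1, Ideal.ofList_append]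
          exact Ideal.mem_sup_right (Ideal.subset_span (by simp))
        have hr := hreg.toIsWeaklyRegular.regular_mod_prev k hk'
        rw [isSMulRegular_quotient_iff_mem_of_smul_mem] at hr
        have h2 : (1 : S) ∈ (Ideal.ofList (gs.take k) • ⊤ : Submodule S S) := by
          apply hr
          simpa using hmem
        apply (hprime k).ne_top
        rw [Ideal.eq_top_iff_one]
        simpa using h2
    calc ((k + 1 : ℕ) : ℕ∞) = (k : ℕ∞) + 1 := by push_cast; rfl
      _ ≤ (Ideal.ofList (gs.take k)).height + 1 := by gcongr; exact ih (by omega)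
      _ ≤ _ := Ideal.height_add_one_le_of_lt_of_isPrime hlt

theorem smooth_point {σ K : Type*} [Fintype σ] [Field K] (a : σ → K)
    {ι : Type*} [Fintype ι] (u : ι → MvPolynomial σ K) (hu : ∀ i, MvPolynomial.eval a (u i) = 0)
    (hJ : LinearIndependent K
      (fun i => (fun v => MvPolynomial.eval a (pderiv v (u i))) : ι → σ → K)) :
    (∀ p ∈ (Ideal.span (Set.range u)).minimalPrimes,
      ∀ q ∈ (Ideal.span (Set.range u)).minimalPrimes,
        p ≤ ptIdeal a → q ≤ ptIdeal a → p = q) ∧
    (∀ p ∈ (Ideal.span (Set.range u)).minimalPrimes, p ≤ ptIdeal a →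
      (∃ s, s ∉ ptIdeal a ∧ ∀ x ∈ p, s * x ∈ Ideal.span (Set.range u)) ∧
      (Fintype.card ι : ℕ∞) ≤ p.height) := by
  classical
  obtain ⟨T, hT, hle⟩ := exists_coords a u hu hJ
  let L := Localization.AtPrime (ptIdeal a)
  obtain ⟨rs, hrlen, hrreg, hrm, hrdim⟩ : ∃ rs : List L, rs.length = Fintype.card σ ∧
      IsRegular L rs ∧ Ideal.ofList rs = maximalIdeal L ∧
      ringKrullDim L = Fintype.card σ := local_reg a
  set φ := algebraMap (MvPolynomial σ K) L with hφ
  set us : List L := (((Finset.univ : Finset ι).toList.map u).map φ) with hus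
  set vs : List L := ((T.toList.map (fun v => (X v - C (a v) : MvPolynomial σ K))).map φ) with hvs
  have hmap_us : Ideal.ofList us = (Ideal.span (Set.range u)).map φ := by
    rw [hus, ← Ideal.map_ofList]
    congr 1
    unfold Ideal.ofList
    congr 1
    ext x; simp
  have hmap_vs : Ideal.ofList vs = (Ideal.span ((fun v => (X v - C (a v) : MvPolynomial σ K)) ''
      (T : Set σ))).map φ := by
    rw [hvs, ← Ideal.map_ofList]
    congr 1
    unfold Ideal.ofList
    congr 1
    ext x; simp
  have hulen : us.length = Fintype.card ι := by simp [hus]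
  have hvlen : vs.length = T.card := by simp [hvs]
  have hmax : (ptIdeal a).map φ = maximalIdeal L := Localization.AtPrime.map_eq_maximalIdeal
  have hule : Ideal.span (Set.range u) ≤ ptIdeal a := by
    apply Ideal.span_le.mpr
    rintro _ ⟨i, rfl⟩
    exact hu i
  have hle1 : Ideal.ofList (us ++ vs) ≤ maximalIdeal L := by
    rw [Ideal.ofList_append, hmap_us, hmap_vs, ← hmax]
    apply sup_le
    · exact Ideal.map_mono hule
    · apply Ideal.map_mono
      apply Ideal.span_le.mpr
      rintro _ ⟨v, -, rfl⟩
      exact lin_mem a v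
  have hm : Ideal.ofList (us ++ vs) = maximalIdeal L := by
    apply le_antisymm hle1
    refine Submodule.le_of_le_smul_of_le_jacobson_bot (I := maximalIdeal L)
      (IsNoetherian.noetherian _) ?_ ?_
    · exact maximalIdeal_le_jacobson _
    · have := Ideal.map_mono (f := φ) hle
      rw [Ideal.map_sup, Ideal.map_sup, hmax, Ideal.map_pow, hmax, ← hmap_us, ← hmap_vs,
        ← Ideal.ofList_append, pow_two] at this
      exact this
  have hdim0 : ringKrullDim (L ⧸ Ideal.ofList (us ++ vs)) = 0 := by
    rw [hm]
    exact ringKrullDim_eq_zero_of_isField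
      ((Ideal.Quotient.maximal_ideal_iff_isField_quotient _).mp (maximalIdeal.isMaximal L))
  have hreg : IsRegular L (us ++ vs) := by
    apply isRegular_of_dim rs hrreg
    · intro g hg
      rw [← hm]; exact Ideal.subset_span hg
    · rw [hdim0, zero_add, List.length_append, hulen, hvlen, hT, hrlen]
  have hPprime : (Ideal.ofList us).IsPrime := isPrime_prefix us vs hreg hm
  have hPheight : (Fintype.card ι : ℕ∞) ≤ (Ideal.ofList us).height := by
    have := le_height_prefix (us ++ vs) hreg hm us.length (by simp)
    rwa [List.take_left, hulen] at this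
  set P : Ideal L := Ideal.ofList us with hP
  -- every minimal prime through the point is the contraction of `P`
  have key : ∀ p ∈ (Ideal.span (Set.range u)).minimalPrimes, p ≤ ptIdeal a →
      p = P.under (MvPolynomial σ K) := by
    intro p hp hpa
    have hpp : p.IsPrime := hp.1.1
    have hle2 : P ≤ p.map φ := by
      rw [hmap_us]; exact Ideal.map_mono hp.1.2
    have hdisj : Disjoint ((ptIdeal a).primeCompl : Set (MvPolynomial σ K)) (p : Set _) := by
      rw [Set.disjoint_left]
      intro x hx hxp
      exact hx (hpa hxp)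
    have h1 : (p.map φ).under (MvPolynomial σ K) = p :=
      IsLocalization.under_map_of_isPrime_disjoint (ptIdeal a).primeCompl L hpp hdisj
    have h2 : P.under (MvPolynomial σ K) ≤ p := by
      rw [← h1]; exact Ideal.comap_mono hle2
    have h3 : Ideal.span (Set.range u) ≤ P.under (MvPolynomial σ K) := by
      rw [hmap_us]; exact Ideal.le_comap_map
    exact le_antisymm (hp.2 ⟨Ideal.IsPrime.under _ P, h3⟩ h2) h2
  refine ⟨fun p hp q hq hpa hqa => by rw [key p hp hpa, key q hq hqa], fun p hp hpa => ⟨?_, ?_⟩⟩
  · have hfg : p.FG := IsNoetherian.noetherian p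
    obtain ⟨t, ht⟩ := hfg
    have hx : ∀ x ∈ t, ∃ s, s ∉ ptIdeal a ∧ s * x ∈ Ideal.span (Set.range u) := by
      intro x hx
      have hxp : x ∈ p := by rw [← ht]; exact Ideal.subset_span hx
      rw [key p hp hpa] at hxp
      have hxP : φ x ∈ (Ideal.span (Set.range u)).map φ := by
        rw [← hmap_us]; exact hxp
      obtain ⟨s, hs, hsx⟩ := (IsLocalization.algebraMap_mem_map_algebraMap_iff
        (ptIdeal a).primeCompl L _ x).mp hxP
      exact ⟨s, hs, hsx⟩
    choose! s hs hsx using hx
    refine ⟨∏ x ∈ t, s x, ?_, ?_⟩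
    · intro hmem
      obtain ⟨x, hx, hsx'⟩ := (Ideal.IsPrime.prod_mem_iff).mp hmem
      exact hs x hx hsx'
    · intro x hx
      rw [← ht] at hx
      induction hx using Submodule.span_induction with
      | mem x hx =>
        rw [← Finset.prod_erase_mul _ _ hx, mul_assoc]
        exact Ideal.mul_mem_left _ _ (hsx x hx)
      | zero => rw [mul_zero]; exact Ideal.zero_mem _
      | add x y _ _ hx hy => rw [mul_add]; exact Ideal.add_mem _ hx hy
      | smul c x _ hx =>
        rw [smul_eq_mul, mul_left_comm]
        exact Ideal.mul_mem_left _ _ hx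
  · rw [key p hp hpa, IsLocalization.height_under (ptIdeal a).primeCompl]
    exact hPheight

end Pool.Agent.Helper10.NC
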