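import Pool.Agent.Helper10.NC.Glue

/-!
The extension of `P` to the local ring at a prime containing `P` is prime when `R ⧸ P` is
F-regular.
-/

set_option autoImplicit false

namespace Pool.Agent.Helper10.NC

theorem isPrime_of_tight {L : Type*} [CommRing L] [IsNoetherianRing L] [IsLocalRing L] (p : ℕ)
    (hp : p.Prime) (J : Ideal L) (hJ : J ≠ ⊤)
    (T : ∀ (a : Ideal L) (z c : L), (∀ q ∈ J.minimalPrimes, c ∉ q) → ∀ e₀ : ℕ,
      (∀ e ≥ e₀, c * z ^ p ^ e ∈ J ⊔ Ideal.span ((fun w => w ^ p ^ e) '' (a : Set L))) →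
      z ∈ J ⊔ a) : J.IsPrime := by
  classical
  have hone : ∀ q ∈ J.minimalPrimes, (1 : L) ∉ q := fun q hq h =>
    (hq.1.1).ne_top ((Ideal.eq_top_iff_one q).2 h)
  have hrad : J.IsRadical := by
    rintro z ⟨k, hk⟩
    have := T ⊥ z 1 hone k (fun e he => by
      refine Ideal.mem_sup_left ?_
      rw [one_mul]
      have hle : k ≤ p ^ e := he.le.trans (Nat.lt_pow_self hp.one_lt).le
      obtain ⟨d, hd⟩ := Nat.exists_eq_add_of_le hle
      rw [hd, pow_add]
      exact J.mul_mem_right _ hk)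
    simpa using this
  obtain ⟨p1, hp1⟩ : J.minimalPrimes.Nonempty := Set.nonempty_coe_sort.1 (Ideal.nonempty_minimalPrimes hJ)
  have hfin : J.minimalPrimes.Finite := Ideal.finite_minimalPrimes_of_isNoetherianRing L J
  have hinf : sInf J.minimalPrimes = J := by
    rw [Ideal.sInf_minimalPrimes, hrad.radical]
  haveI hp1p : p1.IsPrime := hp1.1.1
  by_cases hS : J.minimalPrimes \ {p1} = ∅
  · have h1 : J.minimalPrimes = {p1} := by
      apply Set.Subset.antisymm
      · rwa [← Set.sdiff_eq_empty]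
      · simpa using hp1
    rw [h1, sInf_singleton] at hinf
    rwa [← hinf]
  exfalso
  have hSfin : (J.minimalPrimes \ {p1}).Finite := hfin.subset Set.sdiff_subset
  let S' : Finset (Ideal L) := hSfin.toFinset
  have hS' : ∀ q, q ∈ S' ↔ q ∈ J.minimalPrimes ∧ q ≠ p1 := fun q => by
    simp [S']
  -- pick x
  obtain ⟨x, hx1, hx2⟩ : ∃ x ∈ p1, ∀ q ∈ S', x ∉ q := by
    by_contra hcon
    push Not at hcon
    have hsub : (p1 : Set L) ⊆ ⋃ q ∈ (S' : Set (Ideal L)), (q : Set L) := by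
      intro x hx
      obtain ⟨q, hq, hxq⟩ := hcon x hx
      exact Set.mem_biUnion hq hxq
    rw [Ideal.subset_union_prime (f := fun q : Ideal L => q) p1 p1
      (fun q hq _ _ => ((hS' q).1 hq).1.1.1)] at hsub
    obtain ⟨q, hq, hle⟩ := hsub
    obtain ⟨hq1, hq2⟩ := (hS' q).1 hq
    exact hq2 (le_antisymm (hq1.2 hp1.1 hle) hle)
  -- pick y
  obtain ⟨y, hy1, hy2⟩ : ∃ y, y ∉ p1 ∧ ∀ q ∈ S', y ∈ q := by
    by_contra hcon
    push Not at hcon
    have hle : S'.inf id ≤ p1 := by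
      intro y hy
      by_contra hyp
      obtain ⟨q, hq, hyq⟩ := hcon y hyp
      exact hyq ((Finset.inf_le (f := id) hq : S'.inf id ≤ q) hy)
    obtain ⟨q, hq, hle'⟩ := (hp1p.inf_le').1 hle
    obtain ⟨hq1, hq2⟩ := (hS' q).1 hq
    exact hq2 (le_antisymm hle' (hp1.2 hq1.1 hle'))
  have hxy : x * y ∈ J := by
    rw [← hinf]
    refine Ideal.mem_sInf.2 ?_
    intro q hq
    by_cases h : q = p1
    · rw [h]; exact p1.mul_mem_right _ hx1
    · exact q.mul_mem_left _ (hy2 q ((hS' q).2 ⟨hq, h⟩))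
  have hJp1 : J ≤ p1 := hp1.1.2
  have ht : ∀ q ∈ J.minimalPrimes, x + y ∉ q := by
    intro q hq h
    by_cases hqp : q = p1
    · subst hqp
      exact hy1 ((Ideal.add_mem_iff_right _ hx1).1 h)
    · have hq' := (hS' q).2 ⟨hq, hqp⟩
      exact hx2 q hq' ((Ideal.add_mem_iff_left _ (hy2 q hq')).1 h)
  have hxmem : x ∈ J ⊔ Ideal.span {x + y} := by
    refine T (Ideal.span {x + y}) x (x + y) ht 0 (fun e _ => ?_)
    obtain ⟨d, hd⟩ := sub_dvd_pow_sub_pow (x + y) x (p ^ e)
    have hq0 : p ^ e ≠ 0 := pow_ne_zero _ hp.ne_zero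
    obtain ⟨f, hf⟩ := Nat.exists_eq_succ_of_ne_zero hq0
    have e1 : (x + y) * x ^ p ^ e = (x * y * x ^ f - x * y * d) + x * (x + y) ^ p ^ e := by
      have h2 : (x + y) ^ p ^ e = x ^ p ^ e + y * d := by
        linear_combination hd
      rw [h2, hf, Nat.succ_eq_add_one, pow_succ]
      ring
    rw [e1]
    refine Ideal.add_mem _ (Ideal.mem_sup_left ?_) (Ideal.mem_sup_right ?_)
    · exact J.sub_mem (J.mul_mem_right _ hxy) (J.mul_mem_right _ hxy)
    · refine Ideal.mul_mem_left _ _ (Ideal.subset_span ⟨x + y, ?_, rfl⟩)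
      exact Ideal.subset_span rfl
  obtain ⟨j, hj, b, hb, hjb⟩ := Submodule.mem_sup.1 hxmem
  obtain ⟨r, rfl⟩ := Ideal.mem_span_singleton'.1 hb
  -- x = j + r (x + y)
  have hr1 : r ∈ p1 := by
    have : r * y ∈ p1 := by
      have e2 : r * y = (1 - r) * x - j := by linear_combination hjb
      rw [e2]
      exact p1.sub_mem (p1.mul_mem_left _ hx1) (hJp1 hj)
    exact (hp1p.mem_or_mem this).resolve_right hy1
  obtain ⟨q, hq⟩ := Set.nonempty_iff_ne_empty.2 hS
  have hqS : q ∈ S' := (hS' q).2 ⟨hq.1, by simpa using hq.2⟩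
  haveI hqp : q.IsPrime := hq.1.1.1
  have hr2 : 1 - r ∈ q := by
    have : (1 - r) * x ∈ q := by
      have e2 : (1 - r) * x = j + r * y := by linear_combination -hjb
      rw [e2]
      exact q.add_mem (hq.1.1.2 hj) (q.mul_mem_left _ (hy2 q hqS))
    exact (hqp.mem_or_mem this).resolve_right (hx2 q hqS)
  have hm1 := IsLocalRing.le_maximalIdeal hp1p.ne_top hr1
  have hm2 := IsLocalRing.le_maximalIdeal hqp.ne_top hr2
  have : (1 : L) ∈ IsLocalRing.maximalIdeal L := by
    have := Ideal.add_mem _ hm1 hm2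
    simpa using this
  exact (IsLocalRing.maximalIdeal.isMaximal L).ne_top ((Ideal.eq_top_iff_one _).2 this)

theorem isPrime_of_isFRegular {R : Type*} [CommRing R] [IsNoetherianRing R] (p : ℕ)
    (hp : p.Prime) [CharP R p] (n : Ideal R) [n.IsPrime] (P : Ideal R) (hPn : P ≤ n)
    (hF : IsFRegular p (R ⧸ P)) :
    (P.map (algebraMap R (Localization.AtPrime n))).IsPrime := by
  haveI : IsNoetherianRing (Localization.AtPrime n) :=
    IsLocalization.isNoetherianRing n.primeCompl _ inferInstance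
  refine isPrime_of_tight p hp _ ?_ (fun a z c hc e₀ h => tight_local p n P hF a z c hc e₀ h)
  intro htop
  have h1 : P.map (algebraMap R (Localization.AtPrime n)) ≤
      IsLocalRing.maximalIdeal (Localization.AtPrime n) := by
    rw [← Localization.AtPrime.map_eq_maximalIdeal]
    exact Ideal.map_mono hPn
  rw [htop, top_le_iff] at h1
  exact (IsLocalRing.maximalIdeal.isMaximal _).ne_top h1

end Pool.Agent.Helper10.NC
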